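import Mathlib

/-!
# The structure of the positive integers with `+`, `x * 2 ^ y`, `≤` and `1` is not automatic

Let `Ñ = ⟨ℕ_{>0}; +, x * 2 ^ y, ≤, 1⟩`.  We show that `Ñ` has no automatic presentation, and neither
has its reduct `⟨ℕ_{>0}; +, x * 2 ^ y⟩`.

The proof.  If the graph of a binary function is automatic then the length of the word which
represents the value is at most the maximum of the lengths of the words which represent the
arguments, plus a constant `N` (pumping).  Let `g m` be the greatest length of a word which represents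
a number below `2 ^ m`.  A number below `2 ^ (2 m)` is `q * 2 ^ m + r` with `q, r < 2 ^ m`, and
`m < 2 ^ m`.  So `g (2 m) ≤ g m + 2 N` and `g (2 ^ n) ≤ g 1 + 2 n N`.  But there are `2 ^ 2 ^ n - 1`
positive integers below `2 ^ 2 ^ n` and only exponentially many words of length `g 1 + 2 n N`.
-/

set_option autoImplicit false

namespace Pool.Agent.Results.MP_34afd1_lc.NotAutomaticH75

/-- The convolution `w 0 ⊗ w 1 ⊗ ...` of words over `A`: the words are padded on the right with
`none` to the greatest length, and read as one word over the alphabet `Fin k → Option A`. -/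
def conv {A : Type} {k : ℕ} (w : Fin k → List A) : List (Fin k → Option A) :=
  (List.range (Finset.univ.sup fun i => (w i).length)).map fun n i => (w i)[n]?

/-- A structure with domain `M`, given by a finite list of relations of arbitrary arities (functions
and constants are given by their graphs), is automatic: for some finite alphabet `A` there is a
bijection `e` from `M` onto a regular language `D` over `A` such that for every relation of the
list the set of the convolutions of its tuples is a regular language. -/
def IsAutomatic {M : Type} (S : List (Σ k : ℕ, Set (Fin k → M))) : Prop :=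
  ∃ (A : Type) (_ : Finite A) (D : Language A) (e : M ≃ {w : List A // w ∈ D}), D.IsRegular ∧
    ∀ R ∈ S, Language.IsRegular
      ({u | ∃ a ∈ R.2, u = conv fun i => (e (a i)).1} : Language (Fin R.1 → Option A))

/-- The graph of addition on the positive integers. -/
def addGraph : Set (Fin 3 → ℕ+) := {a | a 0 + a 1 = a 2}

/-- The graph of the function `x * 2 ^ y` on the positive integers. -/
def mulPowGraph : Set (Fin 3 → ℕ+) := {a | a 0 * 2 ^ (a 1 : ℕ) = a 2}

/-- The order of the positive integers. -/
def leRel : Set (Fin 2 → ℕ+) := {a | a 0 ≤ a 1}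

/-- The constant `1`. -/
def oneRel : Set (Fin 1 → ℕ+) := {a | a 0 = 1}

/-- The structure `⟨ℕ_{>0}; +, x * 2 ^ y, ≤, 1⟩`. -/
def NTilde : List (Σ k : ℕ, Set (Fin k → ℕ+)) := [⟨3, addGraph⟩, ⟨3, mulPowGraph⟩, ⟨2, leRel⟩, ⟨1, oneRel⟩]

/-! ### Convolutions -/

section

variable {A : Type} {k : ℕ}

theorem length_conv (w : Fin k → List A) :
    (conv w).length = Finset.univ.sup fun i => (w i).length := by simp [conv]

theorem length_le_conv (w : Fin k → List A) (i : Fin k) : (w i).length ≤ (conv w).length := by
  rw [length_conv]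
  exact Finset.le_sup (f := fun i => (w i).length) (Finset.mem_univ i)

/-- The `i`-th component of a word over the alphabet of the convolutions. -/
def proj (i : Fin k) (u : List (Fin k → Option A)) : List A := u.filterMap fun a => a i

theorem filterMap_range (l : List A) (n : ℕ) (hn : l.length ≤ n) :
    (List.range n).filterMap (fun j => l[j]?) = l := by
  obtain ⟨m, rfl⟩ := Nat.exists_eq_add_of_le hn
  clear hn
  induction m with
  | zero =>
    induction l using List.reverseRecOn with
    | nil => rfl
    | append_singleton l a ih =>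
      rw [List.length_append, List.length_singleton, Nat.add_zero, List.range_succ,
        List.filterMap_append]
      congr 1
      · conv_rhs => rw [← ih]
        rw [Nat.add_zero]
        apply List.filterMap_congr
        intro j hj
        rw [List.mem_range] at hj
        rw [List.getElem?_append_left hj]
      · simp
  | succ m ih =>
    rw [← Nat.add_assoc, List.range_succ, List.filterMap_append, ih]
    simp

theorem proj_conv (w : Fin k → List A) (i : Fin k) : proj i (conv w) = w i := by
  unfold proj conv
  rw [List.filterMap_map]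
  exact filterMap_range (w i) _ (by rw [← length_conv]; exact length_le_conv w i)

theorem proj_append (i : Fin k) (u v : List (Fin k → Option A)) :
    proj i (u ++ v) = proj i u ++ proj i v := List.filterMap_append ..

theorem length_proj_le (i : Fin k) (u : List (Fin k → Option A)) :
    (proj i u).length ≤ u.length := List.length_filterMap_le _ _

theorem getElem_conv (w : Fin k → List A) (n : ℕ) (h : n < (conv w).length) (i : Fin k) :
    (conv w)[n] i = (w i)[n]? := by
  have h1 : ∀ (l : List ℕ) (hl : n < (l.map fun n i => (w i)[n]?).length),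
      (l.map fun n i => (w i)[n]?)[n] i = (w i)[l[n]'(by simpa using hl)]? := by
    intro l hl
    rw [List.getElem_map]
  refine (h1 (List.range (Finset.univ.sup fun i => (w i).length)) h).trans ?_
  rw [List.getElem_range]

theorem proj_drop_conv (w : Fin k → List A) (i : Fin k) (n : ℕ) (hn : (w i).length ≤ n) :
    proj i ((conv w).drop n) = [] := by
  unfold proj
  rw [List.filterMap_eq_nil_iff]
  intro a ha
  obtain ⟨j, hj, rfl⟩ := List.mem_iff_getElem.1 ha
  rw [List.getElem_drop, getElem_conv, List.getElem?_eq_none]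
  omega

/-- If the graph of a binary function is automatic then the length of the word representing the
value exceeds the lengths of the words representing the arguments by at most a constant. -/
theorem length_bound {M : Type} {D : Language A} (e : M ≃ {w : List A // w ∈ D}) (f : M → M → M)
    (hf : Language.IsRegular ({u | ∃ a : Fin 3 → M, a ∈ {a | f (a 0) (a 1) = a 2} ∧
      u = conv fun i => (e (a i)).1} : Language (Fin 3 → Option A))) :
    ∃ N : ℕ, ∀ (x y : M) (m : ℕ), (e x).1.length ≤ m → (e y).1.length ≤ m →
      (e (f x y)).1.length ≤ m + N := by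
  obtain ⟨σ, hσ, B, hB⟩ := hf
  refine ⟨Fintype.card σ, fun x y m hx hy => ?_⟩
  by_contra hlt
  push Not at hlt
  let a : Fin 3 → M := ![x, y, f x y]
  let w : Fin 3 → List A := fun i => (e (a i)).1
  have hw0 : w 0 = (e x).1 := rfl
  have hw1 : w 1 = (e y).1 := rfl
  have hw2 : w 2 = (e (f x y)).1 := rfl
  have hmem : conv w ∈ B.accepts := by
    rw [hB]
    exact ⟨a, rfl, rfl⟩
  have hlen : m + Fintype.card σ < (conv w).length := by
    have := length_le_conv w 2
    rw [hw2] at this
    omega
  -- the part of the convolution after the first `m` letters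
  obtain ⟨q, u, v, t, h1, h2, h3, h4, h5, h6⟩ := B.evalFrom_split (s := B.eval ((conv w).take m))
    (x := (conv w).drop m) (by rw [List.length_drop]; omega) rfl
  have hacc : (conv w).take m ++ (u ++ t) ∈ B.accepts := by
    have h7 : B.eval ((conv w).take m ++ (u ++ t)) = B.eval (conv w) := by
      unfold DFA.eval
      rw [DFA.evalFrom_of_append, DFA.evalFrom_of_append]
      change B.evalFrom (B.evalFrom (B.eval ((conv w).take m)) u) t = _
      rw [h4, h6]
      conv_rhs => rw [← List.take_append_drop m (conv w), DFA.evalFrom_of_append]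
      rfl
    rw [DFA.mem_accepts, h7, ← DFA.mem_accepts]
    exact hmem
  rw [hB] at hacc
  obtain ⟨a', ha', hc'⟩ := hacc
  have ha'' : f (a' 0) (a' 1) = a' 2 := ha'
  have key : ∀ i : Fin 3, (w i).length ≤ m → (e (a' i)).1 = w i := by
    intro i hi
    have e1 : (e (a' i)).1 = proj i (conv fun i => (e (a' i)).1) :=
      (proj_conv (fun i => (e (a' i)).1) i).symm
    have e2 : proj i ((conv w).drop m) = [] := proj_drop_conv w i m hi
    rw [h1, proj_append, proj_append] at e2
    have e3 : proj i u = [] ∧ proj i t = [] := by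
      simp only [List.append_eq_nil_iff] at e2
      exact ⟨e2.1.1, e2.2⟩
    rw [e1, ← hc', proj_append, proj_append, e3.1, e3.2]
    have e4 : proj i (conv w) = w i := proj_conv w i
    rw [← List.take_append_drop m (conv w), proj_append, proj_drop_conv w i m hi] at e4
    simpa using e4
  have hx' : a' 0 = x := e.injective (Subtype.ext (key 0 hx))
  have hy' : a' 1 = y := e.injective (Subtype.ext (key 1 hy))
  rw [hx', hy'] at ha''
  have hz : w 2 = proj 2 ((conv w).take m ++ (u ++ t)) := by
    rw [hc', proj_conv, hw2, ← ha'']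
  have hl1 : (w 2).length ≤ ((conv w).take m ++ (u ++ t)).length := by
    conv_lhs => rw [hz]
    exact length_proj_le _ _
  have hl2 : (conv w).length = (w 2).length := by
    rw [length_conv]
    apply le_antisymm
    · apply Finset.sup_le
      intro i _
      fin_cases i
      · show (w 0).length ≤ _
        rw [hw0, hw2]
        omega
      · show (w 1).length ≤ _
        rw [hw1, hw2]
        omega
      · exact le_rfl
    · exact Finset.le_sup (f := fun i => (w i).length) (Finset.mem_univ 2)
  have hl3 : ((conv w).drop m).length = u.length + v.length + t.length := by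
    rw [h1, List.length_append, List.length_append]
  have hv : 0 < v.length := List.length_pos_iff.2 h3
  rw [List.length_drop] at hl3
  simp only [List.length_append, List.length_take] at hl1
  omega

end

/-! ### Counting -/

theorem exists_large (C E : ℕ) : ∃ n : ℕ, C + E * n < 2 ^ n := by
  refine ⟨2 * (C + 2 * E + 1), ?_⟩
  have h : C + 2 * E + 1 < 2 ^ (C + 2 * E + 1) := Nat.lt_two_pow_self
  have h2 : (C + 2 * E + 1) * (C + 2 * E + 1) < 2 ^ (C + 2 * E + 1) * 2 ^ (C + 2 * E + 1) :=
    Nat.mul_lt_mul'' h h
  rw [two_mul (C + 2 * E + 1), pow_add]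
  refine lt_of_le_of_lt ?_ h2
  nlinarith

/-- There is no injection from the positive integers to words such that the lengths of the words
representing the numbers below `2 ^ 2 ^ n` are bounded by a linear function of `n`. -/
theorem no_linear {A : Type} [Finite A] (g : ℕ+ → List A) (hg : Function.Injective g) (C E : ℕ)
    (h : ∀ (n : ℕ) (x : ℕ+), (x : ℕ) < 2 ^ 2 ^ n → (g x).length ≤ C + E * n) : False := by
  classical
  have := Fintype.ofFinite A
  obtain ⟨b, hb⟩ : ∃ b, Fintype.card (Option A) ≤ 2 ^ b :=
    ⟨_, Nat.lt_two_pow_self.le⟩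
  obtain ⟨n, hn⟩ := exists_large (b * C + 1) (b * E)
  -- numbers `1, …, 2 ^ 2 ^ n - 1`
  let F : Fin (2 ^ 2 ^ n - 1) → (Fin (C + E * n) → Option A) := fun i j =>
    (g ⟨i.1 + 1, Nat.succ_pos _⟩)[j.1]?
  have hF : Function.Injective F := by
    intro i i' hii
    have e1 : g ⟨i.1 + 1, Nat.succ_pos _⟩ = g ⟨i'.1 + 1, Nat.succ_pos _⟩ := by
      apply List.ext_getElem?
      intro j
      by_cases hj : j < C + E * n
      · exact congrFun hii ⟨j, hj⟩
      · have l1 := h n ⟨i.1 + 1, Nat.succ_pos _⟩ (by
          show i.1 + 1 < 2 ^ 2 ^ n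
          have := i.2
          omega)
        have l2 := h n ⟨i'.1 + 1, Nat.succ_pos _⟩ (by
          show i'.1 + 1 < 2 ^ 2 ^ n
          have := i'.2
          omega)
        rw [List.getElem?_eq_none (by omega), List.getElem?_eq_none (by omega)]
    have e2 := congrArg (fun x : ℕ+ => (x : ℕ)) (hg e1)
    simp only [PNat.mk_coe] at e2
    exact Fin.ext (by omega)
  have hc := Fintype.card_le_of_injective F hF
  rw [Fintype.card_fin, Fintype.card_fun, Fintype.card_fin] at hc
  have h1 : Fintype.card (Option A) ^ (C + E * n) ≤ (2 ^ b) ^ (C + E * n) :=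
    Nat.pow_le_pow_left hb _
  rw [← pow_mul] at h1
  have h2 : 2 ^ (b * (C + E * n)) < 2 ^ (2 ^ n - 1) := by
    apply Nat.pow_lt_pow_right (by norm_num)
    have : b * (C + E * n) = b * C + b * E * n := by ring
    omega
  have h3 : 2 ^ (2 ^ n - 1) ≤ 2 ^ 2 ^ n - 1 := by
    have h4 : 2 ^ 2 ^ n = 2 * 2 ^ (2 ^ n - 1) := by
      rw [← pow_succ']
      congr 1
      have : 0 < 2 ^ n := by positivity
      omega
    have h5 : 0 < 2 ^ (2 ^ n - 1) := by positivity
    omega
  omega

/-- The main argument. -/
theorem main {A : Type} [Finite A] (g : ℕ+ → List A) (hg : Function.Injective g) (N : ℕ)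
    (h1 : ∀ (x y : ℕ+) (m : ℕ), (g x).length ≤ m → (g y).length ≤ m →
      (g (x + y)).length ≤ m + N)
    (h2 : ∀ (x y : ℕ+) (m : ℕ), (g x).length ≤ m → (g y).length ≤ m →
      (g (x * 2 ^ (y : ℕ))).length ≤ m + N) : False := by
  refine no_linear g hg (g 1).length (2 * N) fun n => ?_
  induction n with
  | zero =>
    intro x hx
    have hx' : (x : ℕ) < 2 := by simpa using hx
    have : x = 1 := by
      apply PNat.eq
      have := x.pos
      rw [PNat.one_coe]
      omega
    subst this
    omega
  | succ n ih =>
    intro x hx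
    have hM : 0 < 2 ^ n := by positivity
    set M : ℕ := 2 ^ n with hMdef
    have hpow : 2 ^ 2 ^ (n + 1) = 2 ^ M * 2 ^ M := by
      rw [pow_succ, ← hMdef, ← pow_add]
      congr 1
      omega
    rw [hpow] at hx
    have hMlt : M < 2 ^ M := Nat.lt_two_pow_self
    have hq : (x : ℕ) / 2 ^ M < 2 ^ M := Nat.div_lt_of_lt_mul hx
    have hr : (x : ℕ) % 2 ^ M < 2 ^ M := Nat.mod_lt _ (by positivity)
    have hdec : 2 ^ M * ((x : ℕ) / 2 ^ M) + (x : ℕ) % 2 ^ M = x := Nat.div_add_mod _ _
    obtain ⟨P, hP⟩ : ∃ P : ℕ+, (P : ℕ) = M := ⟨⟨M, hM⟩, rfl⟩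
    have hMg : (g P).length ≤ (g 1).length + 2 * N * n := ih P (by rw [hP]; exact hMlt)
    have h3 : 2 * N * (n + 1) = 2 * N * n + 2 * N := by ring
    by_cases hq0 : (x : ℕ) / 2 ^ M = 0
    · have : (x : ℕ) < 2 ^ M := by
        rw [hq0] at hdec
        omega
      have := ih x this
      omega
    · obtain ⟨q, hq1⟩ : ∃ q : ℕ+, (q : ℕ) = (x : ℕ) / 2 ^ M :=
        ⟨⟨_, Nat.pos_of_ne_zero hq0⟩, rfl⟩
      have hqg := ih q (by rw [hq1]; exact hq)
      have hprod := h2 q P _ hqg hMg
      by_cases hr0 : (x : ℕ) % 2 ^ M = 0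
      · have hx2 : x = q * 2 ^ (P : ℕ) := by
          apply PNat.eq
          rw [PNat.mul_coe, PNat.pow_coe, hq1, hP]
          show (x : ℕ) = (x : ℕ) / 2 ^ M * 2 ^ M
          rw [hr0] at hdec
          rw [mul_comm]
          omega
        rw [← hx2] at hprod
        omega
      · obtain ⟨r, hr1⟩ : ∃ r : ℕ+, (r : ℕ) = (x : ℕ) % 2 ^ M :=
          ⟨⟨_, Nat.pos_of_ne_zero hr0⟩, rfl⟩
        have hrg := ih r (by rw [hr1]; exact hr)
        have hsum := h1 (q * 2 ^ (P : ℕ)) r _ hprod (by omega)
        have hx2 : x = q * 2 ^ (P : ℕ) + r := by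
          apply PNat.eq
          rw [PNat.add_coe, PNat.mul_coe, PNat.pow_coe, hq1, hP, hr1]
          show (x : ℕ) = (x : ℕ) / 2 ^ M * 2 ^ M + (x : ℕ) % 2 ^ M
          rw [mul_comm]
          exact hdec.symm
        rw [← hx2] at hsum
        omega

/-- **The structure `⟨ℕ_{>0}; +, x * 2 ^ y, ≤, 1⟩` is not automatic, and neither is its reduct
`⟨ℕ_{>0}; +, x * 2 ^ y⟩`.** -/
theorem result : ¬ IsAutomatic NTilde ∧ ¬ IsAutomatic [⟨3, addGraph⟩, ⟨3, mulPowGraph⟩] := by
  have key : ∀ S : List (Σ k : ℕ, Set (Fin k → ℕ+)), ⟨3, addGraph⟩ ∈ S → ⟨3, mulPowGraph⟩ ∈ S →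
      ¬ IsAutomatic S := by
    rintro S hS1 hS2 ⟨A, hA, D, e, -, h⟩
    obtain ⟨N1, hN1⟩ := length_bound e (fun x y => x + y) (h _ hS1)
    obtain ⟨N2, hN2⟩ := length_bound e (fun x y => x * 2 ^ (y : ℕ)) (h _ hS2)
    refine main (fun x => (e x).1) (Subtype.val_injective.comp e.injective) (N1 + N2) ?_ ?_
    · intro x y m hx hy
      have := hN1 x y m hx hy
      show (e (x + y)).1.length ≤ _
      exact this.trans (by omega)
    · intro x y m hx hy
      have := hN2 x y m hx hy
      show (e (x * 2 ^ (y : ℕ))).1.length ≤ _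
      exact this.trans (by omega)
  exact ⟨key _ (by simp [NTilde]) (by simp [NTilde]), key _ (by simp) (by simp)⟩

end Pool.Agent.Results.MP_34afd1_lc.NotAutomaticH75
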